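import Pool.Agent.Lib.MP_fa6f87_al.Assembly
import Pool.Agent.Lib.MP_fa6f87_al.BS

/-!
Second bounded cohomology of strictly ascending HNN extensions of free groups of finite rank.
-/

namespace Pool.Agent.Results.MP_fa6f87_al.AscendingHNN

open Pool.Agent.AscQM

/-- every element of the free group on one generator is a power of the generator -/
lemma exists_zpow_of (x : FreeGroup (Fin 1)) : ∃ m : ℤ, x = FreeGroup.of 0 ^ m := by
  refine FreeGroup.induction_on x ⟨0, by simp⟩ (fun i => ?_) (fun i _ => ?_) ?_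
  · have hi : i = 0 := Subsingleton.elim _ _
    subst hi
    exact ⟨1, by simp⟩
  · have hi : i = 0 := Subsingleton.elim _ _
    subst hi
    exact ⟨-1, by simp⟩
  · rintro x y ⟨m, hm⟩ ⟨n, hn⟩
    exact ⟨m + n, by rw [hm, hn, zpow_add]⟩

/-- **Main theorem.** Let `G` be isomorphic to the HNN extension `⟨F, t ∣ t x t⁻¹ = θ x⟩` of a free
group `F` of finite rank along an injective, non-surjective endomorphism `θ`.  If `G` is not
isomorphic to a Baumslag–Solitar group `BS(1, m)`, `m ≠ 0`, then the second bounded cohomology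
of `G` with trivial real coefficients has infinite dimension. -/
theorem result (G : Type*) [Group G]
    (hG : ∃ (r : ℕ) (θ : FreeGroup (Fin r) →* FreeGroup (Fin r)) (hθ : Function.Injective θ),
      ¬ Function.Surjective θ ∧ Nonempty (G ≃* AscHNN θ hθ))
    (hBS : ∀ m : ℤ, m ≠ 0 → IsEmpty (G ≃* BS1 m)) :
    ¬ FiniteDimensional ℝ (H2b G) := by
  obtain ⟨r, θ, hθ, hns, ⟨e⟩⟩ := hG
  rcases Nat.lt_or_ge r 2 with hr | hr
  · exfalso
    obtain rfl | rfl : r = 0 ∨ r = 1 := by omega
    · exact hns fun y => ⟨1, Subsingleton.elim _ _⟩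
    · obtain ⟨m, hm⟩ := exists_zpow_of (θ (FreeGroup.of 0))
      have hm0 : m ≠ 0 := by
        rintro rfl
        rw [zpow_zero] at hm
        have h1 : θ (FreeGroup.of 0) = θ 1 := by rw [hm, map_one]
        exact FreeGroup.of_ne_one 0 (hθ h1)
      obtain ⟨e'⟩ := bs_equiv hθ hm
      exact (hBS m hm0).false (e.trans e')
  · have h1 : ¬ FiniteDimensional ℝ (HQM (AscHNN θ hθ)) :=
      not_finite_HQM_ascHNN θ hθ (not_finite_inv hθ hns (by simpa using hr))
    have h2 : ¬ FiniteDimensional ℝ (HQM G) := not_finite_HQM_of_equiv e h1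
    have h3 : Group.FG (AscHNN θ hθ) := fg_ascHNN θ hθ
    have h4 : Group.FG G := (MulEquiv.symm e).surjective |> fun hs =>
      Group.fg_of_surjective (f := (e.symm : AscHNN θ hθ →* G)) hs
    exact not_finite_H2b h2

end Pool.Agent.Results.MP_fa6f87_al.AscendingHNN
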